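import Mathlib

/-! Separability of closed subgroups, S-separability, and the free topological groups. -/

set_option autoImplicit false

namespace Pool.Agent.Y365.SS

open TopologicalSpace

universe u v

/-- Every closed subgroup is separable. -/
def ClosedSubgroupsSeparable (G : Type u) [Group G] [TopologicalSpace G] : Prop :=
  ∀ K : Subgroup G, IsClosed (K : Set G) → SeparableSpace K

/-- S-separability, tested on all topological groups `H` (Hausdorff or not) of the universe `v`. -/
def SSeparable (G : Type u) [Group G] [TopologicalSpace G] : Prop :=
  ∀ (H : Type v) [Group H] [TopologicalSpace H] [IsTopologicalGroup H],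
    ClosedSubgroupsSeparable H → ClosedSubgroupsSeparable (G × H)

/-- S-separability, tested only on the abelian Hausdorff topological groups `H` (in `Type`). -/
def WeaklySSeparable (G : Type u) [Group G] [TopologicalSpace G] : Prop :=
  ∀ (H : Type) [CommGroup H] [TopologicalSpace H] [IsTopologicalGroup H] [T2Space H],
    ClosedSubgroupsSeparable H → ClosedSubgroupsSeparable (G × H)

/-- The free topological group `F(X)` in the sense of Markov, as an abstract group: the free group
on the set `X`. -/
def MarkovFree (X : Type u) : Type u := FreeGroup X

instance (X : Type u) : Group (MarkovFree X) := inferInstanceAs (Group (FreeGroup X))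

/-- The inclusion of the generators. -/
def gen {X : Type u} (x : X) : MarkovFree X := (FreeGroup.of x : FreeGroup X)

/-- The topology of `F(X)`: the finest group topology on the free group on `X` for which the
inclusion of the generators is continuous (the infimum, in the order in which smaller means finer,
of all such group topologies). -/
instance (X : Type u) [TopologicalSpace X] : TopologicalSpace (MarkovFree X) :=
  sInf {t : TopologicalSpace (MarkovFree X) |
    @IsTopologicalGroup (MarkovFree X) t _ ∧ @Continuous X (MarkovFree X) _ t gen}

/-- `F(X)` is a topological group. -/
instance (X : Type u) [TopologicalSpace X] : IsTopologicalGroup (MarkovFree X) :=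
  topologicalGroup_sInf fun _ ht => ht.1

/-- The inclusion of the generators is continuous. -/
theorem continuous_gen (X : Type u) [TopologicalSpace X] :
    Continuous (gen : X → MarkovFree X) := by
  rw [continuous_sInf_rng]
  exact fun t ht => ht.2

/-- The universal property. Every continuous map from `X` to a topological group
extends to a continuous homomorphism on `F(X)`. -/
theorem exists_extension {X : Type u} {G : Type v} [TopologicalSpace X] [Group G]
    [TopologicalSpace G] [IsTopologicalGroup G] (f : X → G) (hf : Continuous f) :
    ∃ φ : MarkovFree X →* G, Continuous φ ∧ ∀ x, φ (gen x) = f x := by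
  let φ : MarkovFree X →* G := (FreeGroup.lift f : FreeGroup X →* G)
  have hφ : ∀ x, φ (gen x) = f x := fun x => FreeGroup.lift_apply_of
  refine ⟨φ, ?_, hφ⟩
  refine continuous_sInf_dom (t := TopologicalSpace.induced φ inferInstance) ⟨?_, ?_⟩
    continuous_induced_dom
  · exact topologicalGroup_induced φ
  · rw [continuous_induced_rng]
    have : (φ ∘ gen) = f := funext hφ
    rw [this]
    exact hf

/-- The free abelian topological group `A(X)` in the sense of Markov, as an abstract group: the
free abelian group on the set `X`, written multiplicatively. -/
def MarkovAbelian (X : Type u) : Type u := Multiplicative (FreeAbelianGroup X)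

instance (X : Type u) : CommGroup (MarkovAbelian X) :=
  inferInstanceAs (CommGroup (Multiplicative (FreeAbelianGroup X)))

/-- The inclusion of the generators. -/
def genA {X : Type u} (x : X) : MarkovAbelian X :=
  (Multiplicative.ofAdd (FreeAbelianGroup.of x) : Multiplicative (FreeAbelianGroup X))

/-- The topology of `A(X)`: the finest group topology on the free abelian group on `X` for which
the inclusion of the generators is continuous. -/
instance (X : Type u) [TopologicalSpace X] : TopologicalSpace (MarkovAbelian X) :=
  sInf {t : TopologicalSpace (MarkovAbelian X) |
    @IsTopologicalGroup (MarkovAbelian X) t _ ∧ @Continuous X (MarkovAbelian X) _ t genA}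

/-- `A(X)` is a topological group. -/
instance (X : Type u) [TopologicalSpace X] : IsTopologicalGroup (MarkovAbelian X) :=
  topologicalGroup_sInf fun _ ht => ht.1

/-- The inclusion of the generators is continuous. -/
theorem continuous_genA (X : Type u) [TopologicalSpace X] :
    Continuous (genA : X → MarkovAbelian X) := by
  rw [continuous_sInf_rng]
  exact fun t ht => ht.2

/-- The universal property of `A(X)`. -/
theorem exists_extensionA {X : Type u} {G : Type v} [TopologicalSpace X] [CommGroup G]
    [TopologicalSpace G] [IsTopologicalGroup G] (f : X → G) (hf : Continuous f) :
    ∃ φ : MarkovAbelian X →* G, Continuous φ ∧ ∀ x, φ (genA x) = f x := by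
  let φ : MarkovAbelian X →* G :=
    (AddMonoidHom.toMultiplicativeLeft (FreeAbelianGroup.lift fun x => Additive.ofMul (f x)) :
      Multiplicative (FreeAbelianGroup X) →* G)
  have hφ : ∀ x, φ (genA x) = f x := fun x => by
    change Additive.toMul ((FreeAbelianGroup.lift fun x => Additive.ofMul (f x))
      (FreeAbelianGroup.of x)) = f x
    rw [FreeAbelianGroup.lift_apply_of]
    rfl
  refine ⟨φ, ?_, hφ⟩
  refine continuous_sInf_dom (t := TopologicalSpace.induced φ inferInstance) ⟨?_, ?_⟩
    continuous_induced_dom
  · exact topologicalGroup_induced φ
  · rw [continuous_induced_rng]
    have : (φ ∘ genA) = f := funext hφ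
    rw [this]
    exact hf

end Pool.Agent.Y365.SS
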