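import Mathlib
import Pool.Agent.Helper332.RealLine4

/-! Adaptation of `Pool.Agent.Helper332.RealLine3` and `RealLine4`: uncountable subgroups of the
real line are not S-separable. -/

set_option autoImplicit false

namespace Pool.Agent.Y365.SS.Real

open Cardinal TopologicalSpace Pool.Agent.Helper332.RealLine
open Pool.Agent.Helper332

/-- A rationally linear map from the reals to a large power of the reals whose graph over a given
uncountable subgroup is not separable. -/
theorem exists_gD {I : Type} (hI : #I = ℵ₁) (D : AddSubgroup ℝ) (hD : ¬ (D : Set ℝ).Countable) :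
    ∃ g : ℝ →ₗ[ℚ] (I → ℝ),
    (∀ t, {i | g t i ≠ 0}.Countable) ∧ ∀ i, ∃ t ∈ D, ((g t i : ℝ) : UnitAddCircle) ≠ 0 := by
  classical
  -- a maximal independent subset of `D`
  obtain ⟨κ, a, ha, hspan, hind⟩ := exists_linearIndependent' ℚ (fun x : D => (x : ℝ))
  have hκ : ¬ Countable κ := by
    intro hc
    apply hD
    have h1 : Countable (Submodule.span ℚ (Set.range ((fun x : D => (x : ℝ)) ∘ a))) :=
      inferInstance
    rw [hspan] at h1
    refine (Set.countable_coe_iff.mp h1).mono ?_
    intro x hx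
    exact Submodule.subset_span ⟨⟨x, hx⟩, rfl⟩
  have hle : #I ≤ #κ := by
    rw [hI, ← succ_aleph0, Order.succ_le_iff]
    exact not_le.mp (fun h => hκ (mk_le_aleph0_iff.mp h))
  obtain ⟨ε⟩ := Cardinal.le_def _ _ |>.mp hle
  have hind2 : LinearIndependent ℚ (fun i : I => ((a (ε i) : D) : ℝ)) := hind.comp ε ε.injective
  -- extend it to a basis
  let b := Module.Basis.extend hind2.linearIndepOn_id
  have hmem : ∀ i, ((a (ε i) : D) : ℝ) ∈ hind2.linearIndepOn_id.extend (Set.subset_univ _) :=
    fun i => Module.Basis.subset_extend hind2.linearIndepOn_id ⟨i, rfl⟩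
  let e : I → hind2.linearIndepOn_id.extend (Set.subset_univ _) := fun i => ⟨_, hmem i⟩
  have hbe : ∀ i, b (e i) = ((a (ε i) : D) : ℝ) := fun i => Module.Basis.extend_apply_self _ _
  have hinj : Function.Injective e := by
    intro i j hij
    have h1 : b (e i) = b (e j) := by rw [hij]
    rw [hbe, hbe] at h1
    exact hind2.injective h1
  let g : ℝ →ₗ[ℚ] (I → ℝ) :=
    { toFun := fun t i => (((1 / 2 : ℚ) * b.repr t (e i) : ℚ) : ℝ)
      map_add' := by intro x y; ext i; simp [mul_add]
      map_smul' := by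
        intro c x; ext i
        change (((1 / 2 : ℚ) * b.repr (c • x) (e i) : ℚ) : ℝ)
          = c • (((1 / 2 : ℚ) * b.repr x (e i) : ℚ) : ℝ)
        rw [map_smul, Finsupp.smul_apply, smul_eq_mul, Rat.smul_def]
        push_cast
        ring }
  refine ⟨g, fun t => ?_, fun i => ?_⟩
  · have h1 : {i | g t i ≠ 0} ⊆ e ⁻¹' ((b.repr t).support : Set _) := by
      intro i hi
      have hi' : (((1 / 2 : ℚ) * b.repr t (e i) : ℚ) : ℝ) ≠ 0 := hi
      simpa using hi'
    exact ((b.repr t).support.finite_toSet.countable.preimage hinj).mono h1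
  · refine ⟨((a (ε i) : D) : ℝ), (a (ε i)).2, ?_⟩
    have h1 : g ((a (ε i) : D) : ℝ) i = 1 / 2 := by
      change (((1 / 2 : ℚ) * b.repr ((a (ε i) : D) : ℝ) (e i) : ℚ) : ℝ) = 1 / 2
      rw [← hbe i]
      simp
    rw [h1, Ne, AddCircle.coe_eq_zero_iff]
    rintro ⟨n, hn⟩
    have h2 : (n : ℝ) = 1 / 2 := by simpa using hn
    have h3 : (2 * n : ℤ) = 1 := by
      have : (2 * (n : ℝ)) = 1 := by rw [h2]; norm_num
      exact_mod_cast this
    omega

/-- The main construction. -/
theorem exists_hD {I : Type} (hI : #I = ℵ₁) (D₀ : AddSubgroup ℝ)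
    (hD₀ : ¬ (D₀ : Set ℝ).Countable) :
    ∃ (r : I → ℝ) (h : (I → ℝ) →ₗ[ℚ] (I → ℝ)),
      (∀ f ∈ thin I, h f = 0) ∧
      (∀ t : ℝ, {i | h (t • r) i ≠ 0}.Countable) ∧
      (∀ i, ∃ t ∈ D₀, ((h (t • r) i : ℝ) : UnitAddCircle) ≠ 0) ∧
      ∀ M : AddSubgroup (I ⊕ I → UnitAddCircle), NonThin M →
        ∃ D : Set (I ⊕ I → UnitAddCircle), D.Countable ∧ D ⊆ M ∧
          (M : Set (I ⊕ I → UnitAddCircle)) ⊆ closure D ∧
          ∀ d ∈ D, ∃ f : I → ℝ, d = Sum.elim (fun i => (f i : UnitAddCircle))
            (fun i => (h f i : UnitAddCircle)) := by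
  classical
  have hunc : Uncountable I := by
    rw [← aleph0_lt_mk_iff, hI]; exact aleph0_lt_aleph_one
  have hIc : #I ≤ 𝔠 := by rw [hI]; exact aleph_one_le_continuum
  have hIr : #I ≤ #ℝ := by rw [mk_real]; exact hIc
  obtain ⟨r⟩ := Cardinal.le_def _ _ |>.mp hIr
  obtain ⟨g, hg1, hg2⟩ := exists_gD hI D₀ hD₀
  obtain ⟨c, hcind, hcnull⟩ := exists_null_family
  have hA : #(I ⊕ I) ≤ 𝔠 := by
    rw [mk_sum, lift_id, add_eq_self (aleph0_le_mk I)]; exact hIc
  -- the quotient by thin functions
  let q₁ : (I → ℝ) →ₗ[ℝ] ((I → ℝ) ⧸ thin I) := (thin I).mkQ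
  have hr : q₁ r ≠ 0 := by
    intro h0
    have h1 : (r : I → ℝ) ∈ thin I := by simpa [q₁] using h0
    have h2 : Countable (Set.range r) := (mem_thin.mp h1).to_subtype
    have h3 : Countable I := (Set.rangeFactorization_injective.mpr r.injective).countable
    exact not_countable (α := I) h3
  -- a functional detecting r
  obtain ⟨ρ, hρ⟩ : ∃ ρ : ((I → ℝ) ⧸ thin I) →ₗ[ℝ] ℝ, ρ (q₁ r) = 1 := by
    have : ∃ ρ : ((I → ℝ) ⧸ thin I) →ₗ[ℝ] ℝ, ρ (q₁ r) ≠ 0 := by
      by_contra hcon
      push Not at hcon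
      exact hr ((Module.forall_dual_apply_eq_zero_iff ℝ _).mp hcon)
    obtain ⟨ρ, hρ⟩ := this
    exact ⟨(ρ (q₁ r))⁻¹ • ρ, by simp [hρ]⟩
  let L : Submodule ℝ ((I → ℝ) ⧸ thin I) := Submodule.span ℝ {q₁ r}
  have hinf : ℵ₀ ≤ #(I → ℝ) := by
    have : Infinite (I → ℝ) := Pi.infinite_of_right
    exact aleph0_le_mk _
  have hL : Module.rank ℝ L < #(I → ℝ) := by
    refine lt_of_le_of_lt (rank_span_le _) ?_
    rw [mk_singleton]
    exact one_lt_aleph0.trans_le hinf
  obtain ⟨v, hv, hvind⟩ := Selection.exists_selection (#(I → ℝ)) hinf (card_nonThin hI) L hL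
    (fun _ : {M : AddSubgroup (I ⊕ I → UnitAddCircle) // NonThin M} => 0)
    (fun M => ((lie M.1).map (pI I)).map (thin I).mkQ)
    (fun M => rank_lie hI r M.1 M.2)
  have hF : ∀ M : {M : AddSubgroup (I ⊕ I → UnitAddCircle) // NonThin M},
      ∃ F ∈ lie M.1, q₁ (pI I F) = v M := by
    intro M
    have := hv M
    rw [sub_zero] at this
    obtain ⟨_, ⟨F, hF, rfl⟩, h2⟩ := this
    exact ⟨F, hF, h2⟩
  choose F hFl hFv using hF
  -- dense sequences
  have hδ : ∀ M : {M : AddSubgroup (I ⊕ I → UnitAddCircle) // NonThin M},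
      ∃ δ : ℕ → (I ⊕ I → UnitAddCircle), (∀ k, δ k ∈ M.1) ∧
        ((M.1 : Set (I ⊕ I → UnitAddCircle)) ⊆ closure (Set.range δ)) ∧
        ∀ k, (Set.range (δ k)).Countable := by
    intro M
    obtain ⟨D, hD, hDM, hMD, hDr⟩ := Torus.exists_dense hA M.1 M.2.1
    have hne : D.Nonempty := by
      rw [← closure_nonempty_iff]
      exact ⟨0, hMD M.1.zero_mem⟩
    obtain ⟨δ, rfl⟩ := hD.exists_eq_range hne
    exact ⟨δ, fun k => hDM ⟨k, rfl⟩, hMD, fun k => hDr _ ⟨k, rfl⟩⟩
  choose δ hδM hδd hδr using hδ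
  have hsec : ∀ x : UnitAddCircle, ∃ y : ℝ, (y : UnitAddCircle) = x :=
    fun x => QuotientAddGroup.mk_surjective x
  choose sec hsec using hsec
  -- the rationally independent family
  have hind : LinearIndependent ℚ
      (fun p : (ℕ × ℕ) × {M : AddSubgroup (I ⊕ I → UnitAddCircle) // NonThin M} =>
        c p.1 • L.mkQ (v p.2)) := linearIndependent_smul hcind hvind
  obtain ⟨h', hh'⟩ := exists_linearMap hind (fun p i =>
    sec (δ p.2 p.1.1 (Sum.inr i)) + c p.1 * F p.2 (Sum.inr i) - g (ρ (c p.1 • v p.2)) i)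
  let h : (I → ℝ) →ₗ[ℚ] (I → ℝ) :=
    g ∘ₗ (ρ.restrictScalars ℚ) ∘ₗ (q₁.restrictScalars ℚ)
      + h' ∘ₗ (L.mkQ.restrictScalars ℚ) ∘ₗ (q₁.restrictScalars ℚ)
  have hh : ∀ f, h f = g (ρ (q₁ f)) + h' (L.mkQ (q₁ f)) := fun f => rfl
  have hthin : ∀ f ∈ thin I, h f = 0 := by
    intro f hf
    have : q₁ f = 0 := by simpa [q₁] using hf
    rw [hh, this]
    simp
  have hline : ∀ t : ℝ, h (t • (r : I → ℝ)) = g t := by
    intro t
    have h1 : q₁ (t • (r : I → ℝ)) = t • q₁ r := map_smul _ _ _
    have h2 : L.mkQ (t • q₁ r) = 0 := by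
      rw [Submodule.mkQ_apply, Submodule.Quotient.mk_eq_zero]
      exact L.smul_mem _ (Submodule.mem_span_singleton_self _)
    rw [hh, h1, h2, map_smul, hρ]
    simp
  refine ⟨r, h, hthin, fun t => ?_, fun i => ?_, fun M hM => ?_⟩
  · rw [hline]; exact hg1 t
  · obtain ⟨t, htD, ht⟩ := hg2 i
    exact ⟨t, htD, by rw [hline]; exact ht⟩
  · let M' : {M : AddSubgroup (I ⊕ I → UnitAddCircle) // NonThin M} := ⟨M, hM⟩
    let s : ℕ × ℕ → (I ⊕ I → UnitAddCircle) := fun p a =>
      δ M' p.1 a + ((c p * F M' a : ℝ) : UnitAddCircle)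
    refine ⟨Set.range s, Set.countable_range s, ?_, ?_, ?_⟩
    · rintro _ ⟨p, rfl⟩
      have h1 : (fun a => (((c p • F M') a : ℝ) : UnitAddCircle)) ∈ M :=
        lie_mem M hM.1 ((lie M).smul_mem (c p) (hFl M'))
      exact M.add_mem (hδM M' p.1) h1
    · refine (hδd M').trans (closure_minimal ?_ isClosed_closure)
      rintro _ ⟨k, rfl⟩
      refine mem_closure_of_tendsto (f := fun l : ℕ => s (k, l)) (b := Filter.atTop) ?_
        (Filter.Eventually.of_forall fun l => ⟨(k, l), rfl⟩)
      rw [tendsto_pi_nhds]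
      intro a
      have h1 : Filter.Tendsto (fun l : ℕ => c (k, l)) Filter.atTop (nhds 0) := by
        refine squeeze_zero_norm (a := fun l : ℕ => 1 / ((l : ℝ) + 1)) (fun l => ?_)
          tendsto_one_div_add_atTop_nhds_zero_nat
        rw [Real.norm_eq_abs]
        exact hcnull (k, l)
      have h2 : Filter.Tendsto (fun l : ℕ => c (k, l) * F M' a) Filter.atTop (nhds 0) := by
        simpa using h1.mul_const (F M' a)
      have h3 : Filter.Tendsto (fun l : ℕ => ((c (k, l) * F M' a : ℝ) : UnitAddCircle))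
          Filter.atTop (nhds ((0 : ℝ) : UnitAddCircle)) :=
        ((AddCircle.continuous_mk' 1).tendsto 0).comp h2
      have h4 := h3.const_add (δ M' k a)
      simpa [s] using h4
    · rintro _ ⟨p, rfl⟩
      let f₀ : I → ℝ := fun i => sec (δ M' p.1 (Sum.inl i))
      have hf₀ : f₀ ∈ thin I := by
        rw [mem_thin]
        refine ((hδr M' p.1).image sec).mono ?_
        rintro _ ⟨i, rfl⟩
        exact ⟨_, ⟨Sum.inl i, rfl⟩, rfl⟩
      refine ⟨f₀ + c p • pI I (F M'), ?_⟩
      have h1 : h (f₀ + c p • pI I (F M')) = fun i =>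
          sec (δ M' p.1 (Sum.inr i)) + c p * F M' (Sum.inr i) := by
        rw [map_add, hthin f₀ hf₀, zero_add, hh]
        have h2 : q₁ (c p • pI I (F M')) = c p • v M' := by
          rw [map_smul, hFv]
        rw [h2, map_smul L.mkQ]
        have h3 := hh' (p, M')
        rw [h3]
        ext i
        simp
      rw [h1]
      ext a
      rcases a with i | i
      · simp [s, f₀, hsec, pI, LinearMap.funLeft_apply]
      · simp [s, hsec]


/-- For every uncountable subgroup `D₀` of the real line there is a Hausdorff abelian topological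
group `H`, all of whose closed subgroups are separable, and a closed subgroup `L` of `ℝ × H` such
that the part of `L` over `D₀` is not separable. -/
theorem real_sub {D₀ : AddSubgroup ℝ} (hD₀ : ¬ (D₀ : Set ℝ).Countable) :
    ∃ (H : Type) (_ : AddCommGroup H) (_ : TopologicalSpace H),
      IsTopologicalAddGroup H ∧ T2Space H ∧
      (∀ K : AddSubgroup H, IsClosed (K : Set H) → SeparableSpace K) ∧
      ∃ L : AddSubgroup (ℝ × H), IsClosed (L : Set (ℝ × H)) ∧
        ¬ SeparableSpace {x : ℝ × H // x ∈ L ∧ x.1 ∈ D₀} := by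
  classical
  let I : Type := (ℵ₁ : Cardinal.{0}).out
  have hI : #I = ℵ₁ := mk_out _
  have hunc : Uncountable I := by
    rw [← aleph0_lt_mk_iff, hI]; exact aleph0_lt_aleph_one
  have hIc : #I ≤ 𝔠 := by rw [hI]; exact aleph_one_le_continuum
  have hA : #(I ⊕ I) ≤ 𝔠 := by
    rw [mk_sum, lift_id, add_eq_self (aleph0_le_mk I)]; exact hIc
  obtain ⟨r, h, hthin, hcount, hne, hdense⟩ := exists_hD hI D₀ hD₀
  have hsec : ∀ x : UnitAddCircle, ∃ y : ℝ, (y : UnitAddCircle) = x :=
    fun x => QuotientAddGroup.mk_surjective x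
  choose sec hsec using hsec
  -- a function whose reduction has countable range is thin
  have hthin' : ∀ f : I → ℝ, (Set.range fun i => (f i : UnitAddCircle)).Countable → f ∈ thin I := by
    intro f hf
    rw [mem_thin]
    refine (Set.Countable.image2 hf (Set.countable_univ (α := ℤ))
      (fun x n => sec x + (n : ℝ))).mono ?_
    rintro _ ⟨i, rfl⟩
    have h0 : ((f i - sec (f i : UnitAddCircle) : ℝ) : UnitAddCircle) = 0 := by
      rw [AddCircle.coe_sub, hsec, sub_self]
    rw [AddCircle.coe_eq_zero_iff] at h0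
    obtain ⟨n, hn⟩ := h0
    refine ⟨(f i : UnitAddCircle), ⟨i, rfl⟩, n, trivial, ?_⟩
    have : (n : ℝ) = f i - sec (f i : UnitAddCircle) := by simpa using hn
    simp [this]
  let Φ : (I → ℝ) →+ (I ⊕ I → UnitAddCircle) :=
    { toFun := fun f => Sum.elim (fun i => (f i : UnitAddCircle)) (fun i => (h f i : UnitAddCircle))
      map_zero' := by
        ext a
        rcases a with i | i
        · simp
        · simp
      map_add' := by
        intro f g
        ext a
        rcases a with i | i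
        · simp
        · simp }
  have hΦl : ∀ f i, Φ f (Sum.inl i) = (f i : UnitAddCircle) := fun f i => rfl
  have hΦr : ∀ f i, Φ f (Sum.inr i) = (h f i : UnitAddCircle) := fun f i => rfl
  let H : AddSubgroup (I ⊕ I → UnitAddCircle) := Φ.range
  refine ⟨H, inferInstance, inferInstance, inferInstance, inferInstance, ?_, ?_⟩
  · -- all closed subgroups are separable
    intro K hK
    let K' : AddSubgroup (I ⊕ I → UnitAddCircle) := K.map H.subtype
    let M : AddSubgroup (I ⊕ I → UnitAddCircle) := K'.topologicalClosure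
    have hMc : IsClosed (M : Set (I ⊕ I → UnitAddCircle)) := K'.isClosed_topologicalClosure
    have hK'M : (K' : Set (I ⊕ I → UnitAddCircle)) ⊆ M := K'.le_topologicalClosure
    have hmem : ∀ x ∈ M, x ∈ H → x ∈ K' := by
      intro x hxM hxH
      have h1 : (⟨x, hxH⟩ : H) ∈ closure (K : Set H) := by
        rw [Topology.IsInducing.subtypeVal.closure_eq_preimage_closure_image]
        exact hxM
      rw [hK.closure_eq] at h1
      exact ⟨⟨x, hxH⟩, h1, rfl⟩
    have key : ∃ D : Set (I ⊕ I → UnitAddCircle), D.Countable ∧ D ⊆ K' ∧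
        (M : Set (I ⊕ I → UnitAddCircle)) ⊆ closure D := by
      by_cases hM : NonThin M
      · obtain ⟨D, hD, hDM, hMD, hDf⟩ := hdense M hM
        refine ⟨D, hD, fun d hd => hmem d (hDM hd) ?_, hMD⟩
        obtain ⟨f, rfl⟩ := hDf d hd
        exact ⟨f, rfl⟩
      · have hcr : ∀ m ∈ M, (Set.range fun i => m (Sum.inl i)).Countable := by
          by_contra hcon
          push Not at hcon
          exact hM ⟨hMc, hcon⟩
        have hK'0 : ∀ x ∈ K', ∀ i, x (Sum.inr i) = 0 := by
          intro x hx i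
          obtain ⟨⟨_, f, rfl⟩, hy, rfl⟩ := hx
          have h1 : f ∈ thin I := hthin' f (hcr _ (hK'M ⟨_, hy, rfl⟩))
          change Φ f (Sum.inr i) = 0
          rw [hΦr, hthin f h1]
          simp
        have hM0 : ∀ x ∈ M, ∀ i, x (Sum.inr i) = 0 := by
          intro x hx i
          have hcl : IsClosed {x : I ⊕ I → UnitAddCircle | x (Sum.inr i) = 0} :=
            isClosed_eq (continuous_apply _) continuous_const
          exact closure_minimal (fun y hy => hK'0 y hy i) hcl hx
        have hMH : ∀ x ∈ M, x ∈ H := by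
          intro x hx
          refine ⟨fun i => sec (x (Sum.inl i)), ?_⟩
          have h1 : (fun i => sec (x (Sum.inl i))) ∈ thin I := by
            rw [mem_thin]
            refine ((hcr x hx).image sec).mono ?_
            rintro _ ⟨i, rfl⟩
            exact ⟨_, ⟨i, rfl⟩, rfl⟩
          ext a
          rcases a with i | i
          · rw [hΦl, hsec]
          · rw [hΦr, hthin _ h1, hM0 x hx i]
            simp
        obtain ⟨D, hD, hDM, hMD, -⟩ := Torus.exists_dense hA M hMc
        exact ⟨D, hD, fun d hd => hmem d (hDM hd) (hMH d (hDM hd)), hMD⟩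
    obtain ⟨D, hD, hDK, hMD⟩ := key
    refine separable_of_inducing (fun k : K => ((k : H) : I ⊕ I → UnitAddCircle))
      (Topology.IsInducing.subtypeVal.comp Topology.IsInducing.subtypeVal)
      (Subtype.val_injective.comp Subtype.val_injective) D hD ?_ ?_
    · intro d hd
      obtain ⟨y, hy, rfl⟩ := hDK hd
      exact ⟨⟨y, hy⟩, rfl⟩
    · rintro _ ⟨k, rfl⟩
      exact hMD (hK'M ⟨k, k.2, rfl⟩)
  · -- the closed nonseparable subgroup
    let L : AddSubgroup (ℝ × H) :=
      { carrier := {x | ∀ i, (x.2 : I ⊕ I → UnitAddCircle) (Sum.inl i)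
          = ((x.1 * r i : ℝ) : UnitAddCircle)}
        zero_mem' := by intro i; simp
        add_mem' := by
          intro x y hx hy i
          have h1 := hx i
          have h2 := hy i
          simp only [Prod.snd_add, Prod.fst_add, AddSubgroup.coe_add, Pi.add_apply, h1, h2]
          rw [add_mul, AddCircle.coe_add]
        neg_mem' := by
          intro x hx i
          have h1 := hx i
          simp only [Prod.snd_neg, Prod.fst_neg, AddSubgroup.coe_neg, Pi.neg_apply, h1]
          rw [neg_mul, AddCircle.coe_neg] }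
    refine ⟨L, ?_, ?_⟩
    · have : (L : Set (ℝ × H)) = ⋂ i, {x : ℝ × H | (x.2 : I ⊕ I → UnitAddCircle) (Sum.inl i)
          = ((x.1 * r i : ℝ) : UnitAddCircle)} := by
        ext x
        simp only [Set.mem_iInter]
        rfl
      rw [this]
      refine isClosed_iInter fun i => isClosed_eq ?_ ?_
      · exact (continuous_apply _).comp (continuous_subtype_val.comp continuous_snd)
      · exact (AddCircle.continuous_mk' 1).comp (continuous_fst.mul continuous_const)
    · intro hsep
      have hval : ∀ x ∈ L, ∀ i, (x.2 : I ⊕ I → UnitAddCircle) (Sum.inr i)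
          = (h (x.1 • r) i : UnitAddCircle) := by
        rintro ⟨t, ⟨_, f, rfl⟩⟩ hx i
        have h1 : f - t • r ∈ thin I := by
          apply hthin'
          refine (Set.countable_singleton (0 : UnitAddCircle)).mono ?_
          rintro _ ⟨i, rfl⟩
          have h2 : (f i : UnitAddCircle) = ((t * r i : ℝ) : UnitAddCircle) := hx i
          simp only [Pi.sub_apply, Pi.smul_apply, smul_eq_mul, AddCircle.coe_sub, h2, sub_self,
            Set.mem_singleton_iff]
        have h3 : h f = h (t • r) := by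
          have h4 := hthin _ h1
          rw [map_sub, sub_eq_zero] at h4
          exact h4
        change Φ f (Sum.inr i) = _
        rw [hΦr, h3]
      obtain ⟨D, hD, hDd⟩ := exists_countable_dense {x : ℝ × H // x ∈ L ∧ x.1 ∈ D₀}
      have hT : (⋃ x ∈ D, {i | h ((x : ℝ × H).1 • r) i ≠ 0}).Countable :=
        hD.biUnion fun x _ => hcount _
      obtain ⟨i, hi⟩ : ∃ i, i ∉ (⋃ x ∈ D, {i | h ((x : ℝ × H).1 • r) i ≠ 0}) := by
        by_contra hcon
        push Not at hcon
        have : (Set.univ : Set I).Countable := hT.mono fun i _ => hcon i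
        exact not_countable (α := I) (Set.countable_univ_iff.mp this)
      have hcl : IsClosed {x : {x : ℝ × H // x ∈ L ∧ x.1 ∈ D₀} |
          ((x : ℝ × H).2 : I ⊕ I → UnitAddCircle) (Sum.inr i) = 0} := by
        refine isClosed_eq ?_ continuous_const
        exact (continuous_apply _).comp (continuous_subtype_val.comp
          (continuous_snd.comp continuous_subtype_val))
      have hall : ∀ x : {x : ℝ × H // x ∈ L ∧ x.1 ∈ D₀},
          ((x : ℝ × H).2 : I ⊕ I → UnitAddCircle) (Sum.inr i) = 0 := by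
        intro x
        refine closure_minimal (fun y hy => ?_) hcl (hDd x)
        change ((y : ℝ × H).2 : I ⊕ I → UnitAddCircle) (Sum.inr i) = 0
        rw [hval y y.2.1 i]
        have h5 : h ((y : ℝ × H).1 • r) i = 0 := by
          by_contra h6
          exact hi (Set.mem_biUnion hy h6)
        rw [h5]
        simp
      obtain ⟨t, htD, ht⟩ := hne i
      apply ht
      have hmem : ((t, ⟨Φ (t • r), t • r, rfl⟩) : ℝ × H) ∈ L := fun i => rfl
      exact hall ⟨_, hmem, htD⟩

end Pool.Agent.Y365.SS.Real
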