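import Mathlib

/-! Uncountable metrizable spaces have continuous real functions with uncountable range. -/

set_option autoImplicit false

namespace Pool.Agent.Y365.SS.Top

open TopologicalSpace Cardinal

universe u

/-- In a metric space which is not separable there is an uncountable uniformly discrete subset. -/
theorem exists_sep {X : Type u} [MetricSpace X] (h : ¬ SeparableSpace X) :
    ∃ (ε : ℝ) (A : Set X), 0 < ε ∧ ¬ A.Countable ∧
      ∀ x ∈ A, ∀ y ∈ A, x ≠ y → ε ≤ dist x y := by
  by_contra hcon
  push Not at hcon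
  apply h
  -- maximal separated sets
  have hmax : ∀ ε : ℝ, 0 < ε → ∃ s : Set X, s.Countable ∧ ∀ x, ∃ y ∈ s, dist x y ≤ ε := by
    intro ε hε
    obtain ⟨A, hA⟩ := zorn_subset {A : Set X | ∀ x ∈ A, ∀ y ∈ A, x ≠ y → ε ≤ dist x y} (by
      intro c hc hchain
      refine ⟨⋃₀ c, ?_, fun s hs => Set.subset_sUnion_of_mem hs⟩
      rintro x ⟨s, hs, hxs⟩ y ⟨t, ht, hyt⟩ hxy
      rcases hchain.total hs ht with hst | hst
      · exact hc ht x (hst hxs) y hyt hxy
      · exact hc hs x hxs y (hst hyt) hxy)
    have hAp := hA.prop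
    have hAc : A.Countable := by
      by_contra hcc
      obtain ⟨x, hx, y, hy, hxy, hlt⟩ := hcon ε A hε hcc
      exact absurd (hAp x hx y hy hxy) (not_le.mpr hlt)
    refine ⟨A, hAc, fun x => ?_⟩
    by_contra hno
    push Not at hno
    have hins : insert x A ∈ {A : Set X | ∀ x ∈ A, ∀ y ∈ A, x ≠ y → ε ≤ dist x y} := by
      intro a ha b hb hab
      rcases ha with rfl | ha
      · rcases hb with rfl | hb
        · exact absurd rfl hab
        · exact (hno b hb).le
      · rcases hb with rfl | hb
        · rw [dist_comm]; exact (hno a ha).le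
        · exact hAp a ha b hb hab
    have hxA : x ∈ A := hA.le_of_ge hins (Set.subset_insert x A) (Set.mem_insert x A)
    have := hno x hxA
    rw [dist_self] at this
    exact absurd this (not_lt.mpr hε.le)
  have : SecondCountableTopology X := Metric.secondCountable_of_almost_dense_set hmax
  infer_instance

/-- The case of nonseparable spaces. -/
theorem exists_fun_nonsep {X : Type u} [MetricSpace X] (h : ¬ SeparableSpace X) :
    ∃ f : X → ℝ, Continuous f ∧ ¬ (Set.range f).Countable := by
  obtain ⟨ε, A, hε, hA, hsep⟩ := exists_sep h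
  have hA1 : ℵ₁ ≤ #A := by
    rw [← succ_aleph0, Order.succ_le_iff]
    exact not_le.mp (fun h => hA (Set.countable_coe_iff.mp (mk_le_aleph0_iff.mp h)))
  obtain ⟨B, hB⟩ := Cardinal.le_mk_iff_exists_set.mp hA1
  -- an injection of `B` into the reals
  have hBc : Cardinal.lift.{0} #B ≤ Cardinal.lift.{u} #ℝ := by
    rw [hB, mk_real, lift_continuum, lift_uzero]
    exact aleph_one_le_continuum
  obtain ⟨r⟩ := Cardinal.lift_mk_le'.mp hBc
  let C : Set X := Subtype.val '' B
  have hCA : C ⊆ A := by rintro _ ⟨x, _, rfl⟩; exact x.2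
  have hpair : C.Pairwise fun x y => ε ≤ dist x y :=
    fun x hx y hy hxy => hsep x (hCA hx) y (hCA hy) hxy
  have hcl : IsClosed C := Metric.isClosed_of_pairwise_le_dist hε hpair
  have hdisc : DiscreteTopology C := by
    refine DiscreteTopology.of_forall_le_dist hε ?_
    intro x y hxy
    exact hsep x (hCA x.2) y (hCA y.2) (fun h => hxy (Subtype.ext h))
  let φ : C → B := fun x => ⟨⟨x, hCA x.2⟩, by
    obtain ⟨y, hy, hyx⟩ := x.2
    have : (⟨x, hCA x.2⟩ : A) = y := Subtype.ext hyx.symm
    rw [this]; exact hy⟩
  have hφ : Function.Bijective φ := by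
    constructor
    · intro x y hxy
      have := congrArg (fun z : B => ((z : A) : X)) hxy
      exact Subtype.ext this
    · intro y
      exact ⟨⟨((y : A) : X), ⟨y, y.2, rfl⟩⟩, rfl⟩
  let g : C(C, ℝ) := ⟨fun x => r (φ x), continuous_of_discreteTopology⟩
  obtain ⟨f, hf⟩ := ContinuousMap.exists_restrict_eq hcl g
  refine ⟨f, f.continuous, fun hc => ?_⟩
  have h1 : (Set.range g).Countable := by
    refine hc.mono ?_
    rintro _ ⟨x, rfl⟩
    refine ⟨x, ?_⟩
    rw [← hf]; rfl
  have hginj : Function.Injective g := fun x y hxy => hφ.1 (r.injective hxy)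
  have h2 : Countable (Set.range g) := h1.to_subtype
  have h3 : Countable C := (Set.rangeFactorization_injective.mpr hginj).countable
  have h4 : Countable B := hφ.2.countable
  have h5 : #B ≤ ℵ₀ := mk_le_aleph0_iff.mpr h4
  rw [hB] at h5
  exact absurd h5 (not_le.mpr aleph0_lt_aleph_one)

/-- The case of separable spaces: a countable family of clopen sets separating the points. -/
theorem exists_fun_clopen {X : Type u} [TopologicalSpace X] (hX : Uncountable X) (U : ℕ → Set X)
    (hU : ∀ n, IsClopen (U n)) (hsep : ∀ x y, x ≠ y → ∃ n, ¬ (x ∈ U n ↔ y ∈ U n)) :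
    ∃ f : X → ℝ, Continuous f ∧ ¬ (Set.range f).Countable := by
  classical
  let e : X → (ℕ → Bool) := fun x n => decide (x ∈ U n)
  have he : Function.Injective e := by
    intro x y hxy
    by_contra hne
    obtain ⟨n, hn⟩ := hsep x y hne
    apply hn
    have := congrFun hxy n
    simpa [e] using this
  let f : X → ℝ := fun x => Cardinal.cantorFunction (1 / 3) (e x)
  have hinj : Function.Injective f :=
    (Cardinal.cantorFunction_injective (by norm_num) (by norm_num)).comp he
  refine ⟨f, ?_, fun hc => ?_⟩
  · have h1 : f = fun x => ∑' n, Cardinal.cantorFunctionAux (1 / 3) (e x) n := rfl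
    rw [h1]
    refine continuous_tsum (u := fun n : ℕ => (1 / 3 : ℝ) ^ n) ?_
      (summable_geometric_of_lt_one (by norm_num) (by norm_num)) ?_
    · intro n
      have : (fun x => Cardinal.cantorFunctionAux (1 / 3) (e x) n)
          = (U n).indicator (fun _ => ((1 / 3 : ℝ)) ^ n) := by
        ext x
        by_cases hx : x ∈ U n
        · simp [Cardinal.cantorFunctionAux, e, hx]
        · simp [Cardinal.cantorFunctionAux, e, hx]
      rw [this]
      exact (hU n).continuous_indicator continuous_const
    · intro n x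
      by_cases hx : x ∈ U n
      · simp [Cardinal.cantorFunctionAux, e, hx]
      · simp [Cardinal.cantorFunctionAux, e, hx]
  · have h2 : Countable (Set.range f) := hc.to_subtype
    have h3 : Countable X := (Set.rangeFactorization_injective.mpr hinj).countable
    exact not_countable (α := X) h3

theorem exists_fun_sep {X : Type u} [MetricSpace X] [SeparableSpace X] (hX : Uncountable X) :
    ∃ f : X → ℝ, Continuous f ∧ ¬ (Set.range f).Countable := by
  classical
  by_contra hcon
  push Not at hcon
  have hne : Nonempty X := by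
    by_contra h
    rw [not_nonempty_iff] at h
    exact not_countable (α := X) inferInstance
  let q : ℕ → X := denseSeq X
  -- good radii
  have hrad : ∀ n m : ℕ, ∃ r : ℝ, 1 / ((m : ℝ) + 2) < r ∧ r < 1 / ((m : ℝ) + 1) ∧
      ∀ x, dist x (q n) ≠ r := by
    intro n m
    have hc := hcon (fun x => dist x (q n)) (continuous_id.dist continuous_const)
    have hlt : 1 / ((m : ℝ) + 2) < 1 / ((m : ℝ) + 1) := by
      apply one_div_lt_one_div_of_lt
      · positivity
      · linarith
    have hunc : ¬ (Set.Ioo (1 / ((m : ℝ) + 2)) (1 / ((m : ℝ) + 1))).Countable := by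
      intro h
      have h1 := (le_aleph0_iff_set_countable.mpr h)
      rw [mk_Ioo_real hlt] at h1
      exact absurd h1 (not_le.mpr aleph0_lt_continuum)
    obtain ⟨r, hr, hr2⟩ : ∃ r ∈ Set.Ioo (1 / ((m : ℝ) + 2)) (1 / ((m : ℝ) + 1)),
        r ∉ Set.range (fun x => dist x (q n)) := by
      by_contra h
      push Not at h
      exact hunc (hc.mono h)
    exact ⟨r, hr.1, hr.2, fun x hx => hr2 ⟨x, hx⟩⟩
  choose r hr1 hr2 hr3 using hrad
  let U : ℕ → Set X := fun k => Metric.ball (q (Nat.unpair k).1) (r (Nat.unpair k).1 (Nat.unpair k).2)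
  obtain ⟨f, hf, hfc⟩ := exists_fun_clopen hX U (by
    intro k
    refine ⟨?_, Metric.isOpen_ball⟩
    have : U k = Metric.closedBall (q (Nat.unpair k).1) (r (Nat.unpair k).1 (Nat.unpair k).2) := by
      ext x
      simp only [U, Metric.mem_ball, Metric.mem_closedBall]
      exact ⟨fun h => h.le, fun h => lt_of_le_of_ne h (hr3 _ _ x)⟩
    rw [this]
    exact Metric.isClosed_closedBall) (by
    intro x y hxy
    have hd : 0 < dist x y := dist_pos.mpr hxy
    obtain ⟨m, hm⟩ := exists_nat_one_div_lt (half_pos hd)
    have hpos : (0 : ℝ) < 1 / ((m : ℝ) + 2) := by positivity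
    obtain ⟨n, hn⟩ := (denseRange_denseSeq X).exists_dist_lt x hpos
    refine ⟨Nat.pair n m, ?_⟩
    simp only [U, Nat.unpair_pair, Metric.mem_ball]
    intro hiff
    have hx : dist x (q n) < r n m := lt_trans hn (hr1 n m)
    have hy := hiff.mp hx
    have h1 : dist x y ≤ dist x (q n) + dist y (q n) := by
      rw [dist_comm y (q n)]; exact dist_triangle _ _ _
    have h2 := hr2 n m
    have h3 : dist x (q n) < 1 / ((m : ℝ) + 1) := lt_trans hx h2
    have h4 : dist y (q n) < 1 / ((m : ℝ) + 1) := lt_trans hy h2
    linarith)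
  exact hfc (hcon f hf)

/-- Every uncountable metric space has a continuous real function with uncountable range. -/
theorem exists_fun {X : Type u} [MetricSpace X] (hX : Uncountable X) :
    ∃ f : X → ℝ, Continuous f ∧ ¬ (Set.range f).Countable := by
  by_cases h : SeparableSpace X
  · exact exists_fun_sep hX
  · exact exists_fun_nonsep h

end Pool.Agent.Y365.SS.Top
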