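import Mathlib
import Pool.Agent.Y365.SS.Defs
import Pool.Agent.Y365.SS.Real
import Pool.Agent.Y365.SS.Top

/-! S-separability: countable groups, subgroups of the real line, free topological groups. -/

set_option autoImplicit false

namespace Pool.Agent.Y365.SS

open TopologicalSpace

universe u v w

/-- The property passes to continuous homomorphic images. -/
theorem css_of_surjective {A : Type u} {B : Type v} [Group A] [TopologicalSpace A] [Group B]
    [TopologicalSpace B] (f : A →* B) (hf : Continuous f) (hs : Function.Surjective f)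
    (hA : ClosedSubgroupsSeparable A) : ClosedSubgroupsSeparable B := by
  intro K hK
  have h1 := hA (K.comap f) (hK.preimage hf)
  let g : K.comap f → K := fun x => ⟨f x, x.2⟩
  have hg : Continuous g := Continuous.subtype_mk (hf.comp continuous_subtype_val) _
  have hgs : Function.Surjective g := by
    rintro ⟨y, hy⟩
    obtain ⟨x, rfl⟩ := hs y
    exact ⟨⟨x, hy⟩, rfl⟩
  exact hgs.denseRange.separableSpace hg

theorem weakly_of_surjective {A : Type u} {B : Type v} [Group A] [TopologicalSpace A] [Group B]
    [TopologicalSpace B] (f : A →* B) (hf : Continuous f) (hs : Function.Surjective f)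
    (hA : WeaklySSeparable A) : WeaklySSeparable B := by
  intro H _ _ _ _ hH
  refine css_of_surjective (f.prodMap (MonoidHom.id H)) ?_ ?_ (hA H hH)
  · exact (hf.comp continuous_fst).prodMk continuous_snd
  · rintro ⟨a, b⟩
    obtain ⟨x, rfl⟩ := hs a
    exact ⟨(x, b), rfl⟩

theorem weakly_of_sSeparable {G : Type u} [Group G] [TopologicalSpace G]
    (hG : SSeparable.{u, v} G) : WeaklySSeparable G := by
  intro H _ _ _ _ hH
  have h1 : ClosedSubgroupsSeparable (ULift.{v} H) :=
    css_of_surjective (MulEquiv.ulift.symm : H ≃* ULift.{v} H).toMonoidHom continuous_uliftUp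
      (MulEquiv.ulift.symm : H ≃* ULift.{v} H).surjective hH
  have h2 := hG (ULift.{v} H) h1
  refine css_of_surjective ((MonoidHom.id G).prodMap
    (MulEquiv.ulift : ULift.{v} H ≃* H).toMonoidHom) ?_ ?_ h2
  · exact continuous_fst.prodMk (continuous_uliftDown.comp continuous_snd)
  · rintro ⟨a, b⟩
    exact ⟨(a, ULift.up b), rfl⟩

/-- Countable groups are S-separable. -/
theorem sSeparable_of_countable (G : Type u) [Group G] [TopologicalSpace G] [Countable G] :
    SSeparable.{u, v} G := by
  intro H _ _ _ hH L hL
  classical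
  let L₁ : Subgroup H := L.comap (MonoidHom.inr G H)
  have hL₁ : IsClosed (L₁ : Set H) := hL.preimage (continuous_const.prodMk continuous_id)
  have hs := hH L₁ hL₁
  obtain ⟨D, hDc, hD⟩ := exists_countable_dense L₁
  have hch : ∀ g : G, ∃ h : H, (∃ h' : H, (g, h') ∈ L) → (g, h) ∈ L := by
    intro g
    by_cases h : ∃ h' : H, (g, h') ∈ L
    · obtain ⟨h', hh'⟩ := h
      exact ⟨h', fun _ => hh'⟩
    · exact ⟨1, fun h' => absurd h' h⟩
  choose s hs' using hch
  let E : Set (G × H) := ⋃ g ∈ {g : G | ∃ h' : H, (g, h') ∈ L},
    (fun d : L₁ => ((g, s g * (d : H)) : G × H)) '' D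
  have hEc : E.Countable := by
    refine Set.Countable.biUnion (Set.to_countable _) fun g _ => hDc.image _
  refine Pool.Agent.Helper332.RealLine.separable_of_inducing (fun x : L => (x : G × H))
    Topology.IsInducing.subtypeVal Subtype.val_injective E hEc ?_ ?_
  · intro x hx
    simp only [E, Set.mem_iUnion] at hx
    obtain ⟨g, hg, d, hd, rfl⟩ := hx
    have h1 : (g, s g) ∈ L := hs' g hg
    have h2 : ((1, (d : H)) : G × H) ∈ L := d.2
    have h3 : ((g, s g * (d : H)) : G × H) ∈ L := by
      have := L.mul_mem h1 h2
      simpa using this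
    exact ⟨⟨_, h3⟩, rfl⟩
  · rintro _ ⟨⟨⟨g, h⟩, hx⟩, rfl⟩
    have hg : ∃ h' : H, (g, h') ∈ L := ⟨h, hx⟩
    have h1 : (g, s g) ∈ L := hs' g hg
    have h2 : (s g)⁻¹ * h ∈ L₁ := by
      have := L.mul_mem (L.inv_mem h1) hx
      have h3 : ((g, s g)⁻¹ * (g, h) : G × H) = (1, (s g)⁻¹ * h) := by simp
      rw [h3] at this
      exact this
    let ψ : L₁ → G × H := fun d => (g, s g * (d : H))
    have hψ : Continuous ψ := continuous_const.prodMk
      (continuous_const.mul continuous_subtype_val)
    have h3 : ψ ⟨_, h2⟩ ∈ closure (ψ '' D) := by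
      have := image_closure_subset_closure_image (s := D) hψ
      exact this ⟨_, hD _, rfl⟩
    have h4 : ψ ⟨_, h2⟩ = (g, h) := by simp [ψ]
    rw [h4] at h3
    refine closure_mono ?_ h3
    exact Set.subset_biUnion_of_mem (u := fun g : G =>
      (fun d : L₁ => ((g, s g * (d : H)) : G × H)) '' D) hg

/-- Uncountable subgroups of the real line are not S-separable. -/
theorem countable_of_weakly (D : Subgroup (Multiplicative ℝ)) (hD : WeaklySSeparable D) :
    Countable D := by
  by_contra hcount
  let D₀ : AddSubgroup ℝ :=
    { carrier := {x | Multiplicative.ofAdd x ∈ D}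
      zero_mem' := D.one_mem
      add_mem' := fun ha hb => D.mul_mem ha hb
      neg_mem' := fun ha => D.inv_mem ha }
  have hD₀ : ¬ (D₀ : Set ℝ).Countable := by
    intro h
    apply hcount
    have h1 : Countable D₀ := h.to_subtype
    have : Function.Injective (fun x : D => (⟨Multiplicative.toAdd (x : Multiplicative ℝ), x.2⟩ : D₀)) := by
      intro x y hxy
      have := congrArg (fun z : D₀ => (z : ℝ)) hxy
      exact Subtype.ext this
    exact this.countable
  obtain ⟨H, iH, tH, htg, ht2, hCS, L, hLc, hLs⟩ := Real.real_sub hD₀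
  have hT2H : T2Space (Multiplicative H) := ht2
  have hCS' : ClosedSubgroupsSeparable (Multiplicative H) := by
    intro K hK
    let K₀ : AddSubgroup H :=
      { carrier := {x | Multiplicative.ofAdd x ∈ K}
        zero_mem' := K.one_mem
        add_mem' := fun ha hb => K.mul_mem ha hb
        neg_mem' := fun ha => K.inv_mem ha }
    have hK₀ : IsClosed (K₀ : Set H) := hK.preimage continuous_ofAdd
    have hs := hCS K₀ hK₀
    let f : K₀ → K := fun x => ⟨Multiplicative.ofAdd (x : H), x.2⟩
    have hf : Continuous f := Continuous.subtype_mk (continuous_ofAdd.comp continuous_subtype_val) _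
    have hfs : Function.Surjective f :=
      fun y => ⟨⟨Multiplicative.toAdd (y : Multiplicative H), y.2⟩, rfl⟩
    exact hfs.denseRange.separableSpace hf
  let L' : Subgroup (D × Multiplicative H) :=
    { carrier := {x | ((Multiplicative.toAdd (x.1 : Multiplicative ℝ), Multiplicative.toAdd x.2) :
        ℝ × H) ∈ L}
      one_mem' := L.zero_mem
      mul_mem' := fun ha hb => L.add_mem ha hb
      inv_mem' := fun ha => L.neg_mem ha }
  have hj : Continuous (fun x : D × Multiplicative H =>
      ((Multiplicative.toAdd (x.1 : Multiplicative ℝ), Multiplicative.toAdd x.2) : ℝ × H)) :=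
    (continuous_toAdd.comp (continuous_subtype_val.comp continuous_fst)).prodMk
      (continuous_toAdd.comp continuous_snd)
  have hL' : IsClosed (L' : Set (D × Multiplicative H)) := hLc.preimage hj
  have hs : SeparableSpace L' := hD (Multiplicative H) hCS' L' hL'
  apply hLs
  let f : L' → {x : ℝ × H // x ∈ L ∧ x.1 ∈ D₀} := fun x => ⟨_, x.2, (x : D × Multiplicative H).1.2⟩
  have hf : Continuous f := Continuous.subtype_mk (hj.comp continuous_subtype_val) _
  have hfs : Function.Surjective f := by
    rintro ⟨⟨a, b⟩, hab, ha⟩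
    exact ⟨⟨(⟨Multiplicative.ofAdd a, ha⟩, Multiplicative.ofAdd b), hab⟩, rfl⟩
  exact hfs.denseRange.separableSpace hf

/-- A group with a continuous homomorphism to the real line whose range is uncountable is not
S-separable. -/
theorem countable_range_of_weakly {G : Type u} [Group G] [TopologicalSpace G]
    (φ : G →* Multiplicative ℝ) (hφ : Continuous φ) (hG : WeaklySSeparable G) :
    (Set.range φ).Countable := by
  have h1 : WeaklySSeparable φ.range :=
    weakly_of_surjective φ.rangeRestrict (Continuous.subtype_mk hφ _)
      φ.rangeRestrict_surjective hG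
  have h2 : Countable φ.range := countable_of_weakly φ.range h1
  exact Set.countable_coe_iff.mp h2

theorem countable_range_free {X : Type u} [TopologicalSpace X]
    (h : WeaklySSeparable (MarkovFree X) ∨ WeaklySSeparable (MarkovAbelian X))
    (f : X → ℝ) (hf : Continuous f) : (Set.range f).Countable := by
  have hf' : Continuous (fun x => Multiplicative.ofAdd (f x)) := continuous_ofAdd.comp hf
  rcases h with h | h
  · obtain ⟨φ, hφ, hφg⟩ := exists_extension (fun x => Multiplicative.ofAdd (f x)) hf'
    have h1 := countable_range_of_weakly φ hφ h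
    refine h1.mono ?_
    rintro _ ⟨x, rfl⟩
    exact ⟨gen x, hφg x⟩
  · obtain ⟨φ, hφ, hφg⟩ := exists_extensionA (fun x => Multiplicative.ofAdd (f x)) hf'
    have h1 := countable_range_of_weakly φ hφ h
    refine h1.mono ?_
    rintro _ ⟨x, rfl⟩
    exact ⟨genA x, hφg x⟩

theorem countable_range_metric {X : Type u} [TopologicalSpace X]
    (h : WeaklySSeparable (MarkovFree X) ∨ WeaklySSeparable (MarkovAbelian X))
    (M : Type w) [MetricSpace M] (g : X → M) (hg : Continuous g) : (Set.range g).Countable := by
  by_contra hc
  have hu : Uncountable (Set.range g) := by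
    rw [← not_countable_iff, Set.countable_coe_iff]
    exact hc
  obtain ⟨f, hf, hfc⟩ := Top.exists_fun hu
  apply hfc
  have h1 := countable_range_free h (fun x => f ⟨g x, x, rfl⟩)
    (hf.comp (Continuous.subtype_mk hg _))
  refine h1.mono ?_
  rintro _ ⟨⟨_, x, rfl⟩, rfl⟩
  exact ⟨x, rfl⟩

instance (X : Type u) [Countable X] : Countable (MarkovFree X) := by
  have : Countable (List (X × Bool)) := inferInstance
  exact inferInstanceAs (Countable (Quot _))

instance (X : Type u) [Countable X] : Countable (MarkovAbelian X) := by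
  have h1 : Countable (X →₀ ℤ) := inferInstance
  exact inferInstanceAs (Countable (FreeAbelianGroup X)) 

end Pool.Agent.Y365.SS
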